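import Mathlib
import Pool.Agent.Lib_MP_6e4ab6_nt.Cert

/-!
# Doubling-stable solutions of the triple product equation: the algebraic core
-/

namespace Pool.Agent.Lib_MP_6e4ab6_nt

variable {K : Type*} [Field K] [CharZero K]

/-- Once `s ≠ s'`, the relation forced by one doubling is linear. -/
theorem core_linear (s t u s' t' : K)
    (h0 : 2*s + t = 2*s' + t')
    (h2 : u^2-2*t^2+4*s*u+4*s^2-8*t-8 = u^2-2*t'^2+4*s'*u+4*s'^2-8*t'-8)
    (hne : s ≠ s') : s' = 3*s+2*t+u+4 := by
  have ht : t' = t + 2*(s-s') := by linear_combination -h0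
  subst ht
  have hd : s - s' ≠ 0 := sub_ne_zero.mpr hne
  have : 4 * (s - s') * (s - s' + u + 2*t + 2*s + 4) = 0 := by
    linear_combination h2
  have h4 : (4 : K) ≠ 0 := by norm_num
  rcases mul_eq_zero.mp this with h | h
  · exact absurd ((mul_eq_zero.mp h).resolve_left h4) hd
  · linear_combination -h

theorem G_map (σ : K →+* K) (w u : K) : σ (G w u) = G (σ w) (σ u) := by
  simp [G, map_add, map_mul, map_sub, map_pow, map_ofNat]

theorem F1_map (σ : K →+* K) (w u : K) : σ (F1 w u) = F1 (σ w) (σ u) := by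
  simp [F1, map_add, map_mul, map_neg, map_ofNat]

theorem F2_map (σ : K →+* K) (w u : K) : σ (F2 w u) = F2 (σ w) (σ u) := by
  simp [F2, map_add, map_mul, map_sub, map_pow, map_ofNat]

theorem core (σ : K →+* K) (s t u s' t' : K)
    (hs : σ s = s^2 - 2*t - 6)
    (ht : σ t = t^2 - 2*s*u - 4*s^2 + 8*t + 12)
    (hu : σ u = u^2-2*t^2+4*s*u+4*s^2-8*t-8)
    (hs' : σ s' = s'^2 - 2*t' - 6)
    (hu' : σ u = u^2-2*t'^2+4*s'*u+4*s'^2-8*t'-8)
    (h0 : 2*s + t = 2*s' + t') :
    (s = s' ∧ t = t') ∨
    (s = 0 ∧ t = -3 ∧ s' = u - 2 ∧ t' = 1 - 2*u) ∨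
    (s' = 0 ∧ t' = -3 ∧ s = u - 2 ∧ t = 1 - 2*u) ∨
    (s = -1 ∧ t = -2 ∧ u = 1 ∧ s' = -2 ∧ t' = 0) ∨
    (s' = -1 ∧ t' = -2 ∧ u = 1 ∧ s = -2 ∧ t = 0) := by
  by_cases hne : s = s'
  · left
    refine ⟨hne, ?_⟩
    subst hne
    linear_combination h0
  right
  have h2 : (2:K) ≠ 0 := by norm_num
  have hlin : s' = 3*s+2*t+u+4 := core_linear s t u s' t' h0 (hu.symm.trans hu') hne
  have ht' : t' = t + 2*(s-s') := by linear_combination -h0
  -- the doubled linear relation
  have hlin1 : σ s' = 3*σ s+2*σ t+σ u+4 := by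
    have := congrArg σ hlin
    simpa only [map_add, map_mul, map_ofNat] using this
  have hQ : (s+1)^2 + (s'+1)^2 = (u-1)^2 + 1 := by
    rw [hs', hs, ht, hu] at hlin1
    rw [ht'] at hlin1
    linear_combination hlin1 - 2 * hlin
  -- the doubled quadratic relation
  have hQ1 : (σ s+1)^2 + (σ s'+1)^2 = (σ u-1)^2 + 1 := by
    have := congrArg σ hQ
    simpa only [map_add, map_mul, map_sub, map_pow, map_one] using this
  obtain ⟨U, hU⟩ : ∃ U : K, u = U + 1 := ⟨u - 1, by ring⟩
  obtain ⟨w, hw⟩ : ∃ w : K, s + s' = 2 * w + U - 1 := ⟨(s + s' - U + 1)/2, by ring⟩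
  have ht2 : 2 * t = s' - 3 * s - u - 4 := by linear_combination -hlin
  have hUu : U = u - 1 := by linear_combination -hU
  have hU1 : σ U = F2 w U := by
    have h1 : σ U = σ u - 1 := by rw [hUu, map_sub, map_one]
    rw [h1, hu, F2]
    have htt : t = (s' - 3 * s - u - 4)/2 := by rw [← ht2]; ring
    have hww : w = (s + s' - U + 1)/2 := by rw [hw]; ring
    rw [hww, htt, hUu]
    linear_combination (-2 : K) * hQ
  have hw1 : σ w = F1 w U := by
    have h1 : σ s + σ s' = 2 * σ w + σ U - 1 := by
      have := congrArg σ hw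
      simpa only [map_add, map_mul, map_sub, map_ofNat, map_one] using this
    apply mul_left_cancel₀ h2
    have h3 : 2 * σ w = σ s + σ s' - σ U + 1 := by linear_combination -h1
    rw [h3, hU1, hs, hs', F1, F2, ht']
    have htt : t = (s' - 3 * s - u - 4)/2 := by rw [← ht2]; ring
    have hww : w = (s + s' - U + 1)/2 := by rw [hw]; ring
    rw [hww, htt, hUu]
    linear_combination (1 : K) * hQ
  have hWG : w * G w U = 0 := by
    have hww : w = (s + s' - U + 1)/2 := by rw [hw]; ring
    have htt : t = (s' - 3 * s - u - 4)/2 := by rw [← ht2]; ring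
    rw [hs, hs', hu, ht', htt] at hQ1
    rw [hww, G, hUu]
    linear_combination (-1/4 : K) * hQ1 + (1/4 : K) * (7/2*(s+1)^2+14*(s+1)*(s'+1)+4*(s+1)*(u-1)+7/2*(s'+1)^2+4*(s'+1)*(u-1)-3/2*(u-1)^2-2*(u-1)-7/2) * hQ
  rcases mul_eq_zero.mp hWG with hw0 | hG
  · -- the first family
    have hP : s + s' = u - 2 := by rw [hw, hw0, hUu]; ring
    have hprod : s * s' = 0 := by
      have : 2 * (s * s') = 2 * 0 := by linear_combination (s + s' + u) * hP - hQ
      exact mul_left_cancel₀ h2 this
    rcases mul_eq_zero.mp hprod with h | h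
    · left
      have hs'2 : s' = u - 2 := by linear_combination hP - h
      refine ⟨h, ?_, hs'2, ?_⟩
      · apply mul_left_cancel₀ h2
        linear_combination ht2 + hs'2 - 3 * h
      · rw [ht']
        apply mul_left_cancel₀ h2
        linear_combination ht2 - 3 * hs'2 + h
    · right; left
      have hs2 : s = u - 2 := by linear_combination hP - h
      refine ⟨h, ?_, hs2, ?_⟩
      · rw [ht']
        apply mul_left_cancel₀ h2
        linear_combination ht2 - 3 * h + hs2
      · apply mul_left_cancel₀ h2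
        linear_combination ht2 + h - 3 * hs2
  · -- the sporadic point
    right; right
    have hG1 : G (F1 w U) (F2 w U) = 0 := by
      rw [← hw1, ← hU1, ← G_map, hG, map_zero]
    have hG2 : G (F1 (F1 w U) (F2 w U)) (F2 (F1 w U) (F2 w U)) = 0 := by
      have e1 : σ (F1 w U) = F1 (F1 w U) (F2 w U) := by rw [F1_map, hw1, hU1]
      have e2 : σ (F2 w U) = F2 (F1 w U) (F2 w U) := by rw [F2_map, hw1, hU1]
      rw [← e1, ← e2, ← G_map, hG1, map_zero]
    have hU0 : U = 0 := cert w U hG hG1 hG2
    have hU10 : F2 w U = 0 := by rw [← hU1, hU0, map_zero]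
    have hw0 : w = -1 := by
      rw [hU0] at hU10 hG
      simp only [F2, G] at hU10 hG
      have h5 : (3*w-1)*(w+1) = 0 := by
        apply mul_left_cancel₀ h2
        linear_combination hU10
      rcases mul_eq_zero.mp h5 with h | h
      · exfalso
        have hw3 : w = 1/3 := by
          field_simp
          linear_combination h
        rw [hw3] at hG
        norm_num at hG
      · linear_combination h
    have hu1 : u = 1 := by rw [hU, hU0]; ring
    have hP : s + s' = -3 := by rw [hw, hw0, hU0]; norm_num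
    have hprod : (s+1) * (s'+1) = 0 := by
      have : 2 * ((s+1) * (s'+1)) = 2 * 0 := by
        rw [hu1] at hQ
        linear_combination (s + s' + 1) * hP - hQ
      exact mul_left_cancel₀ h2 this
    rcases mul_eq_zero.mp hprod with h | h
    · left
      have e1 : s = -1 := by linear_combination h
      have e2 : s' = -2 := by linear_combination hP - h
      refine ⟨e1, ?_, hu1, e2, ?_⟩
      · apply mul_left_cancel₀ h2
        rw [e1, e2, hu1] at ht2
        linear_combination ht2
      · rw [ht']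
        apply mul_left_cancel₀ h2
        rw [e1, e2, hu1] at ht2
        rw [e1, e2]
        linear_combination ht2
    · right
      have e1 : s' = -1 := by linear_combination h
      have e2 : s = -2 := by linear_combination hP - h
      refine ⟨e1, ?_, hu1, e2, ?_⟩
      · rw [ht']
        apply mul_left_cancel₀ h2
        rw [e1, e2, hu1] at ht2
        rw [e1, e2]
        linear_combination ht2
      · apply mul_left_cancel₀ h2
        rw [e1, e2, hu1] at ht2
        linear_combination ht2

end Pool.Agent.Lib_MP_6e4ab6_nt
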