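import Mathlib
import Pool.Agent.Lib_MP_6e4ab6_nt.Core

/-!
# From cosines to the cyclotomic field
-/

namespace Pool.Agent.Lib_MP_6e4ab6_nt

open Complex

/-- A field of characteristic zero with a copy `ζ` of a given primitive `m`-th root of unity
`ω`, and an endomorphism which squares it. -/
theorem exists_field (m : ℕ) (hm : Odd m) (ω : ℂ) (hω : IsPrimitiveRoot ω m) :
    ∃ (K : Type) (_ : Field K) (_ : CharZero K) (σ : K →+* K) (ψ : K →+* ℂ) (ζ : K),
      σ ζ = ζ ^ 2 ∧ ψ ζ = ω := by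
  have hm0 : m ≠ 0 := by rintro rfl; simp at hm
  have : NeZero m := ⟨hm0⟩
  have : IsCyclotomicExtension {m} ℚ (CyclotomicField m ℚ) :=
    CyclotomicField.isCyclotomicExtension m ℚ
  have hζ := IsCyclotomicExtension.zeta_spec m ℚ (CyclotomicField m ℚ)
  have hcop : Nat.Coprime 2 m := (Nat.coprime_two_left).mpr hm
  have hζ2 : IsPrimitiveRoot ((IsCyclotomicExtension.zeta m ℚ (CyclotomicField m ℚ)) ^ 2) m :=
    hζ.pow_of_coprime 2 hcop
  let σ := IsCyclotomicExtension.fromZetaAut hζ2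
    (Polynomial.cyclotomic.irreducible_rat (Nat.pos_of_ne_zero hm0))
  have hσ : σ (IsCyclotomicExtension.zeta m ℚ (CyclotomicField m ℚ)) = (IsCyclotomicExtension.zeta m ℚ (CyclotomicField m ℚ)) ^ 2 :=
    IsCyclotomicExtension.fromZetaAut_spec hζ2 _
  let ψ : (CyclotomicField m ℚ) →+* ℂ :=
    (IsAlgClosed.lift (R := ℚ) (S := CyclotomicField m ℚ) (M := ℂ)).toRingHom
  have hψ : IsPrimitiveRoot (ψ (IsCyclotomicExtension.zeta m ℚ (CyclotomicField m ℚ))) m :=
    hζ.map_of_injective ψ.injective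
  obtain ⟨i, -, hi⟩ := hψ.eq_pow_of_pow_eq_one hω.pow_eq_one
  refine ⟨CyclotomicField m ℚ, inferInstance, inferInstance, (σ : CyclotomicField m ℚ ≃+* CyclotomicField m ℚ).toRingHom, ψ,
    (IsCyclotomicExtension.zeta m ℚ (CyclotomicField m ℚ)) ^ i, ?_, ?_⟩
  · have : (σ : CyclotomicField m ℚ ≃+* CyclotomicField m ℚ).toRingHom (IsCyclotomicExtension.zeta m ℚ (CyclotomicField m ℚ))
      = (IsCyclotomicExtension.zeta m ℚ (CyclotomicField m ℚ)) ^ 2 := hσ
    rw [map_pow, this, ← pow_mul, ← pow_mul, mul_comm]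
  · rw [map_pow, hi]

/-- `-exp(π i / m)` is a primitive `m`-th root of unity for odd `m`. -/
theorem omega_prim (m : ℕ) (hm : Odd m) :
    IsPrimitiveRoot (-Complex.exp (Real.pi * I / m)) m := by
  have hm0 : m ≠ 0 := by rintro rfl; simp at hm
  have hmC : (m : ℂ) ≠ 0 := Nat.cast_ne_zero.mpr hm0
  have hpiC : (Real.pi : ℂ) ≠ 0 := Complex.ofReal_ne_zero.mpr Real.pi_ne_zero
  have h1 := Complex.isPrimitiveRoot_exp m hm0
  obtain ⟨k, hk⟩ := hm
  -- `-exp(π i/m) = exp(2 π i /m)^(k+1)`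
  have h2 : -Complex.exp (Real.pi * I / m) = Complex.exp (2 * Real.pi * I / m) ^ (k+1) := by
    rw [← Complex.exp_nat_mul]
    have h3 : -Complex.exp (Real.pi * I / m) =
        Complex.exp (Real.pi * I / m + Real.pi * I) := by
      rw [Complex.exp_add, Complex.exp_pi_mul_I]; ring
    rw [h3]
    congr 1
    have hmk : (m : ℂ) = 2 * k + 1 := by rw [hk]; push_cast; ring
    field_simp
    push_cast
    rw [hmk]; ring
  rw [h2]
  apply h1.pow_of_coprime
  rw [hk]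
  have : Nat.gcd (k+1) (2*k+1) = 1 := by
    have h4 : Nat.gcd (k+1) (2*k+1) ∣ 1 := by
      have h5 : Nat.gcd (k+1) (2*k+1) ∣ 2*(k+1) := Dvd.dvd.mul_left (Nat.gcd_dvd_left _ _) 2
      have h6 : Nat.gcd (k+1) (2*k+1) ∣ (2*k+1) := Nat.gcd_dvd_right _ _
      have h7 := (Nat.dvd_sub h5 h6)
      have h8 : 2*(k+1) - (2*k+1) = 1 := by omega
      rwa [h8] at h7
    exact Nat.dvd_one.mp h4
  exact this

theorem omega_pow (m s : ℕ) (hm : m ≠ 0) :
    (-Complex.exp (Real.pi * I / m)) ^ s + ((-Complex.exp (Real.pi * I / m))⁻¹) ^ s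
      = ((-1 : ℝ) ^ s * (2 * Real.cos (s * Real.pi / m)) : ℝ) := by
  have hmC : (m : ℂ) ≠ 0 := Nat.cast_ne_zero.mpr hm
  have e1 : (-Complex.exp (Real.pi * I / m)) ^ s
      = (-1)^s * Complex.exp ((s * Real.pi / m : ℝ) * I) := by
    rw [neg_pow, ← Complex.exp_nat_mul]
    congr 2
    push_cast
    ring
  have e2 : ((-Complex.exp (Real.pi * I / m))⁻¹) ^ s
      = (-1)^s * Complex.exp (-(s * Real.pi / m : ℝ) * I) := by
    rw [inv_pow, e1, mul_inv, ← Complex.exp_neg]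
    congr 1
    · rw [← inv_pow]; norm_num
    · congr 1; ring
  rw [e1, e2]
  push_cast
  rw [Complex.cos]
  ring_nf

end Pool.Agent.Lib_MP_6e4ab6_nt
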