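import Mathlib
import Pool.Agent.Lib_MP_6e4ab6_nt.Cyclo

/-!
# The real form of the algebraic core, and elementary facts on cosines
-/

namespace Pool.Agent.Lib_MP_6e4ab6_nt

open Real

/-- `2 cos (2 π s / m)`. -/
noncomputable def A (m s : ℕ) : ℝ := 2 * cos (2 * (s * π / m))

theorem real_core (m : ℕ) (hm : Odd m) (s₁ s₂ s₃ t₁ t₂ t₃ : ℕ)
    (hcos : cos (s₁ * π / m) * cos (s₂ * π / m) * cos (s₃ * π / m)
      = cos (t₁ * π / m) * cos (t₂ * π / m) * cos (t₃ * π / m))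
    (hpar : Even (s₁ + s₂ + s₃ + t₁ + t₂ + t₃))
    (a₁ a₂ a₃ b₁ b₂ b₃ : ℝ) (ha₁ : a₁ = A m s₁) (ha₂ : a₂ = A m s₂) (ha₃ : a₃ = A m s₃)
    (hb₁ : b₁ = A m t₁) (hb₂ : b₂ = A m t₂) (hb₃ : b₃ = A m t₃)
    (s t u s' t' : ℝ) (hs : s = a₁ + a₂ + a₃) (ht : t = a₁*a₂+a₁*a₃+a₂*a₃) (hu : u = a₁*a₂*a₃)
    (hs' : s' = b₁ + b₂ + b₃) (ht' : t' = b₁*b₂+b₁*b₃+b₂*b₃) :
    u = b₁*b₂*b₃ ∧
    ((s = s' ∧ t = t') ∨
    (s = 0 ∧ t = -3 ∧ s' = u - 2 ∧ t' = 1 - 2*u) ∨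
    (s' = 0 ∧ t' = -3 ∧ s = u - 2 ∧ t = 1 - 2*u) ∨
    (s = -1 ∧ t = -2 ∧ u = 1 ∧ s' = -2 ∧ t' = 0) ∨
    (s' = -1 ∧ t' = -2 ∧ u = 1 ∧ s = -2 ∧ t = 0)) := by
  have hm0 : m ≠ 0 := by rintro rfl; simp at hm
  obtain ⟨K, _, _, σ, ψ, ζ, hσ, hψ⟩ := exists_field m hm _ (omega_prim m hm)
  have hζ0 : ζ ≠ 0 := by
    intro h
    rw [h, map_zero] at hψ
    have := neg_eq_zero.mp hψ.symm
    exact Complex.exp_ne_zero _ this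
  -- the numbers `c s` in `K`
  obtain ⟨c, hc⟩ : ∃ c : ℕ → K, ∀ n, c n = ζ ^ n + (ζ⁻¹) ^ n := ⟨_, fun _ => rfl⟩
  have hψc : ∀ n, ψ (c n) = (((-1 : ℝ) ^ n * (2 * cos (n * π / m)) : ℝ) : ℂ) := by
    intro n
    rw [hc, map_add, map_pow, map_pow, map_inv₀, hψ]
    exact omega_pow m n hm0
  have hσc : ∀ n, σ (c n) = (c n) ^ 2 - 2 := by
    intro n
    rw [hc, map_add, map_pow, map_pow, map_inv₀, hσ]
    have h1 : ζ ^ n * (ζ⁻¹) ^ n = 1 := by rw [← mul_pow, mul_inv_cancel₀ hζ0, one_pow]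
    have h2 : (ζ ^ 2)⁻¹ ^ n = (ζ⁻¹ ^ n) ^ 2 := by rw [← inv_pow, ← pow_mul, ← pow_mul, mul_comm]
    have h3 : (ζ ^ 2) ^ n = (ζ ^ n) ^ 2 := by rw [← pow_mul, ← pow_mul, mul_comm]
    rw [h2, h3]
    linear_combination (-2 : K) * h1
  obtain ⟨B, hB⟩ : ∃ B : ℕ → K, ∀ n, B n = (c n)^2 - 2 := ⟨_, fun _ => rfl⟩
  have hσB : ∀ n, σ (B n) = (B n)^2 - 2 := by
    intro n
    have h1 : B n = σ (c n) := by rw [hB, hσc]
    rw [h1, hσc, map_sub, map_pow, map_ofNat, ← hσc]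
  have hψB : ∀ n, ψ (B n) = ((A m n : ℝ) : ℂ) := by
    intro n
    rw [hB, map_sub, map_pow, hψc, map_ofNat, A, cos_two_mul]
    have : ((-1 : ℝ)^n)^2 = 1 := by rw [← pow_mul, mul_comm, pow_mul]; norm_num
    have h2 : ((-1 : ℝ) ^ n * (2 * cos (n * π / m)))^2 - 2 = 2 * (2 * cos (n * π / m)^2 - 1) := by
      rw [mul_pow, this]; ring
    rw [← h2]
    push_cast
    ring
  -- the relation in `K`
  have hR : c s₁ * c s₂ * c s₃ = c t₁ * c t₂ * c t₃ := by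
    apply ψ.injective
    rw [map_mul, map_mul, map_mul, map_mul, hψc, hψc, hψc, hψc, hψc, hψc]
    simp only [← Complex.ofReal_mul]
    congr 1
    have hsign : (-1 : ℝ)^(s₁+s₂+s₃) = (-1 : ℝ)^(t₁+t₂+t₃) := by
      have h1 : (-1 : ℝ)^(s₁+s₂+s₃) * (-1 : ℝ)^(t₁+t₂+t₃) = 1 := by
        rw [← pow_add]
        have : s₁ + s₂ + s₃ + (t₁ + t₂ + t₃) = s₁ + s₂ + s₃ + t₁ + t₂ + t₃ := by ring
        rw [this, hpar.neg_one_pow]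
      have h2 : (-1 : ℝ)^(t₁+t₂+t₃) * (-1 : ℝ)^(t₁+t₂+t₃) = 1 := by
        rw [← mul_pow]; norm_num
      have h3 : (-1 : ℝ)^(t₁+t₂+t₃) ≠ 0 := by positivity
      exact mul_right_cancel₀ h3 (h1.trans h2.symm)
    calc (-1 : ℝ) ^ s₁ * (2 * cos (s₁ * π / m)) * ((-1) ^ s₂ * (2 * cos (s₂ * π / m))) *
          ((-1) ^ s₃ * (2 * cos (s₃ * π / m)))
        = (-1 : ℝ)^(s₁+s₂+s₃) * 8 *
          (cos (s₁ * π / m) * cos (s₂ * π / m) * cos (s₃ * π / m)) := by ring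
      _ = (-1 : ℝ)^(t₁+t₂+t₃) * 8 *
          (cos (t₁ * π / m) * cos (t₂ * π / m) * cos (t₃ * π / m)) := by rw [hsign, hcos]
      _ = _ := by ring
  have hR1 : B s₁ * B s₂ * B s₃ = B t₁ * B t₂ * B t₃ := by
    have := congrArg σ hR
    simpa only [map_mul, hσc, ← hB] using this
  have hcB : ∀ n, (c n)^2 = B n + 2 := by intro n; rw [hB]; ring
  have hR0 : (B s₁ + 2) * (B s₂ + 2) * (B s₃ + 2) = (B t₁ + 2) * (B t₂ + 2) * (B t₃ + 2) := by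
    rw [← hcB, ← hcB, ← hcB, ← hcB, ← hcB, ← hcB, ← mul_pow, ← mul_pow, hR]; ring
  have hR2 := congrArg σ hR1
  simp only [map_mul, hσB] at hR2
  have hcore := core σ (B s₁ + B s₂ + B s₃) (B s₁ * B s₂ + B s₁ * B s₃ + B s₂ * B s₃)
    (B s₁ * B s₂ * B s₃) (B t₁ + B t₂ + B t₃) (B t₁ * B t₂ + B t₁ * B t₃ + B t₂ * B t₃)
    (by simp only [map_add, hσB]; ring)
    (by simp only [map_add, map_mul, hσB]; ring)
    (by simp only [map_mul, hσB]; ring)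
    (by simp only [map_add, hσB]; ring)
    (by rw [hR1]; simp only [map_mul, hσB]; ring)
    (by
      have h2 : (2 : K) ≠ 0 := by norm_num
      apply mul_left_cancel₀ h2
      linear_combination hR0 - hR1)
  -- transfer
  have key : ∀ x y : K, ∀ rx ry : ℝ, ψ x = (rx : ℂ) → ψ y = (ry : ℂ) → x = y → rx = ry := by
    intro x y rx ry hx hy hxy
    rw [hxy, hy] at hx
    exact_mod_cast hx.symm
  have ks : ψ (B s₁ + B s₂ + B s₃) = ((s : ℝ) : ℂ) := by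
    rw [hs, ha₁, ha₂, ha₃, map_add, map_add, hψB, hψB, hψB]; push_cast; ring
  have ks' : ψ (B t₁ + B t₂ + B t₃) = ((s' : ℝ) : ℂ) := by
    rw [hs', hb₁, hb₂, hb₃, map_add, map_add, hψB, hψB, hψB]; push_cast; ring
  have kt : ψ (B s₁ * B s₂ + B s₁ * B s₃ + B s₂ * B s₃) = ((t : ℝ) : ℂ) := by
    rw [ht, ha₁, ha₂, ha₃, map_add, map_add, map_mul, map_mul, map_mul, hψB, hψB, hψB]
    push_cast; ring
  have kt' : ψ (B t₁ * B t₂ + B t₁ * B t₃ + B t₂ * B t₃) = ((t' : ℝ) : ℂ) := by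
    rw [ht', hb₁, hb₂, hb₃, map_add, map_add, map_mul, map_mul, map_mul, hψB, hψB, hψB]
    push_cast; ring
  have ku : ψ (B s₁ * B s₂ * B s₃) = ((u : ℝ) : ℂ) := by
    rw [hu, ha₁, ha₂, ha₃, map_mul, map_mul, hψB, hψB, hψB]; push_cast; ring
  have ku' : ψ (B t₁ * B t₂ * B t₃) = ((b₁*b₂*b₃ : ℝ) : ℂ) := by
    rw [hb₁, hb₂, hb₃, map_mul, map_mul, hψB, hψB, hψB]; push_cast; ring
  have k0 : ψ 0 = ((0 : ℝ) : ℂ) := by rw [map_zero]; norm_num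
  have k1 : ψ 1 = ((1 : ℝ) : ℂ) := by rw [map_one]; norm_num
  have km1 : ψ (-1) = ((-1 : ℝ) : ℂ) := by rw [map_neg, map_one]; norm_num
  have km2 : ψ (-2) = ((-2 : ℝ) : ℂ) := by rw [map_neg, map_ofNat]; norm_num
  have km3 : ψ (-3) = ((-3 : ℝ) : ℂ) := by rw [map_neg, map_ofNat]; norm_num
  have kum : ψ (B s₁ * B s₂ * B s₃ - 2) = ((u - 2 : ℝ) : ℂ) := by
    rw [map_sub, ku, map_ofNat]; push_cast; ring
  have kul : ψ (1 - 2 * (B s₁ * B s₂ * B s₃)) = ((1 - 2 * u : ℝ) : ℂ) := by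
    rw [map_sub, map_mul (f := ψ) 2, ku, map_ofNat, map_one]; push_cast; ring
  refine ⟨key _ _ _ _ ku ku' hR1, ?_⟩
  rcases hcore with ⟨h1, h2⟩ | ⟨h1, h2, h3, h4⟩ | ⟨h1, h2, h3, h4⟩ | ⟨h1, h2, h3, h4, h5⟩ |
    ⟨h1, h2, h3, h4, h5⟩
  · exact Or.inl ⟨key _ _ _ _ ks ks' h1, key _ _ _ _ kt kt' h2⟩
  · exact Or.inr (Or.inl ⟨key _ _ _ _ ks k0 h1, key _ _ _ _ kt km3 h2, key _ _ _ _ ks' kum h3,
      key _ _ _ _ kt' kul h4⟩)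
  · exact Or.inr (Or.inr (Or.inl ⟨key _ _ _ _ ks' k0 h1, key _ _ _ _ kt' km3 h2,
      key _ _ _ _ ks kum h3, key _ _ _ _ kt kul h4⟩))
  · exact Or.inr (Or.inr (Or.inr (Or.inl ⟨key _ _ _ _ ks km1 h1, key _ _ _ _ kt km2 h2,
      key _ _ _ _ ku k1 h3, key _ _ _ _ ks' km2 h4, key _ _ _ _ kt' k0 h5⟩)))
  · exact Or.inr (Or.inr (Or.inr (Or.inr ⟨key _ _ _ _ ks' km1 h1, key _ _ _ _ kt' km2 h2,
      key _ _ _ _ ku k1 h3, key _ _ _ _ ks km2 h4, key _ _ _ _ kt k0 h5⟩)))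

end Pool.Agent.Lib_MP_6e4ab6_nt
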