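import Mathlib
import Pool.Agent.Lib_MP_6e4ab6_nt.RealCore

/-!
# MP_6e4ab6_nt: all admissible symbols with odd `m`
-/

namespace Pool.Agent.Lib_MP_6e4ab6_nt.Odd

open Real Pool.Agent.Lib_MP_6e4ab6_nt

/-- The symbol `(m; s₁,t₁,s₂,t₂,s₃,t₃)` is admissible: the four conditions of the problem. -/
structure Admissible (m s₁ t₁ s₂ t₂ s₃ t₃ : ℕ) : Prop where
  pos : 0 < s₁ ∧ 0 < t₁ ∧ 0 < s₂ ∧ 0 < t₂ ∧ 0 < s₃ ∧ 0 < t₃
  cos_eq : cos (s₁ * π / m) * cos (s₂ * π / m) * cos (s₃ * π / m)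
    = cos (t₁ * π / m) * cos (t₂ * π / m) * cos (t₃ * π / m)
  adjacent : s₁ ≠ t₁ ∧ t₁ ≠ s₂ ∧ s₂ ≠ t₂ ∧ t₂ ≠ s₃ ∧ s₃ ≠ t₃ ∧ t₃ ≠ s₁
  lt_half : 2 * s₁ < m ∧ 2 * t₁ < m ∧ 2 * s₂ < m ∧ 2 * t₂ < m ∧ 2 * s₃ < m ∧ 2 * t₃ < m
  even_sum : Even (s₁ + s₂ + s₃ + t₁ + t₂ + t₃)

/-- `{S, T} = {P, Q}` where `S = {s₁,s₂,s₃}`, `T = {t₁,t₂,t₃}` as multisets. -/
def SidesAre (s₁ t₁ s₂ t₂ s₃ t₃ : ℕ) (P Q : Multiset ℕ) : Prop :=
  (({s₁, s₂, s₃} : Multiset ℕ) = P ∧ ({t₁, t₂, t₃} : Multiset ℕ) = Q) ∨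
  (({s₁, s₂, s₃} : Multiset ℕ) = Q ∧ ({t₁, t₂, t₃} : Multiset ℕ) = P)

/-! ### elementary facts -/

theorem A_eq {m n s k : ℕ} (hm : 0 < m) (hn : 0 < n) (hs : 2 * s ≤ m) (hk : 2 * k ≤ n)
    (h : A m s = A n k) : n * s = k * m := by
  have hmR : (0 : ℝ) < m := Nat.cast_pos.mpr hm
  have hnR : (0 : ℝ) < n := Nat.cast_pos.mpr hn
  have hsR : (2 : ℝ) * s ≤ m := by exact_mod_cast hs
  have hkR : (2 : ℝ) * k ≤ n := by exact_mod_cast hk
  have hpi := Real.pi_pos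
  have aux : ∀ (a b : ℝ), 0 < b → 0 ≤ a → 2 * a ≤ b → 2 * (a * π / b) ∈ Set.Icc 0 π := by
    intro a b hb ha hab
    constructor
    · positivity
    · have : 2 * (a * π / b) = (2 * a / b) * π := by ring
      rw [this]
      have h1 : 2 * a / b ≤ 1 := (div_le_one hb).mpr hab
      nlinarith
  have h1 := aux s m hmR (Nat.cast_nonneg s) hsR
  have h2 := aux k n hnR (Nat.cast_nonneg k) hkR
  have h3 : cos (2 * (s * π / m)) = cos (2 * (k * π / n)) := by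
    unfold A at h; linarith
  have h4 := Real.injOn_cos h1 h2 h3
  have h5 : (n : ℝ) * s = k * m := by
    field_simp at h4
    nlinarith [h4]
  exact_mod_cast h5

theorem A_inj {m s k : ℕ} (hm : 0 < m) (hs : 2 * s ≤ m) (hk : 2 * k ≤ m)
    (h : A m s = A m k) : s = k := by
  have h1 := A_eq hm hm hs hk h
  have h2 : m * s = m * k := by rw [h1, mul_comm]
  exact Nat.eq_of_mul_eq_mul_left hm h2

theorem A_cube (m s : ℕ) : A m s ^ 3 - 3 * A m s = A m (3 * s) := by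
  unfold A
  have h := Real.cos_three_mul (2 * (s * π / m))
  have h2 : 2 * (((3 * s : ℕ) : ℝ) * π / m) = 3 * (2 * (s * π / m)) := by push_cast; ring
  rw [h2, h]; ring

theorem A_third : A 3 1 = -1 := by
  unfold A
  have h : 2 * (((1 : ℕ) : ℝ) * π / (3 : ℕ)) = π - π / 3 := by push_cast; ring
  rw [h, Real.cos_pi_sub, Real.cos_pi_div_three]; norm_num

theorem A_mul (k m s : ℕ) (hk : 0 < k) : A (k * m) (k * s) = A m s := by
  unfold A
  have hkR : (k : ℝ) ≠ 0 := by exact_mod_cast hk.ne'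
  congr 2
  push_cast
  congr 1
  rw [mul_assoc, mul_div_mul_left _ _ hkR]

theorem mset_eq {x y z s₁ s₂ s₃ : ℕ} (hxy : x ≠ y) (hxz : x ≠ z) (hyz : y ≠ z)
    (hx : x = s₁ ∨ x = s₂ ∨ x = s₃) (hy : y = s₁ ∨ y = s₂ ∨ y = s₃)
    (hz : z = s₁ ∨ z = s₂ ∨ z = s₃) : ({s₁, s₂, s₃} : Multiset ℕ) = {x, y, z} := by
  symm
  have hnd : ({x, y, z} : Multiset ℕ).Nodup := by
    simp [hxy, hxz, hyz]
  apply Multiset.eq_of_le_of_card_le
  · rw [Multiset.le_iff_subset hnd]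
    intro a ha
    simp only [Multiset.insert_eq_cons, Multiset.mem_cons, Multiset.mem_singleton] at ha ⊢
    rcases ha with rfl | rfl | rfl
    · exact hx
    · exact hy
    · exact hz
  · simp


/-! ### the one-parameter family -/

theorem two_of {b₁ b₂ b₃ u : ℝ} (h1 : b₁ + b₂ + b₃ = u - 2)
    (h2 : b₁*b₂+b₁*b₃+b₂*b₃ = 1 - 2*u) (h3 : b₁*b₂*b₃ = u) :
    (b₁ = -1 ∧ b₂ = -1 ∧ b₃ = u) ∨ (b₁ = -1 ∧ b₃ = -1 ∧ b₂ = u) ∨
      (b₂ = -1 ∧ b₃ = -1 ∧ b₁ = u) := by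
  have h : (b₁+1)*((b₂+1)*(b₃+1)) = 0 := by linear_combination h1 + h2 + h3
  rcases mul_eq_zero.mp h with h | h
  · have e1 : b₁ = -1 := by linarith
    subst e1
    have h' : (b₂+1)*(b₃+1) = 0 := by linear_combination -h3 + h1
    rcases mul_eq_zero.mp h' with h'' | h''
    · left
      have e2 : b₂ = -1 := by linarith
      exact ⟨rfl, e2, by linarith⟩
    · right; left
      have e2 : b₃ = -1 := by linarith
      exact ⟨rfl, e2, by linarith⟩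
  · rcases mul_eq_zero.mp h with h | h
    · have e1 : b₂ = -1 := by linarith
      subst e1
      have h' : (b₁+1)*(b₃+1) = 0 := by linear_combination -h3 + h1
      rcases mul_eq_zero.mp h' with h'' | h''
      · left
        have e2 : b₁ = -1 := by linarith
        exact ⟨e2, rfl, by linarith⟩
      · right; right
        have e2 : b₃ = -1 := by linarith
        exact ⟨rfl, e2, by linarith⟩
    · have e1 : b₃ = -1 := by linarith
      subst e1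
      have h' : (b₁+1)*(b₂+1) = 0 := by linear_combination -h3 + h1
      rcases mul_eq_zero.mp h' with h'' | h''
      · right; left
        have e2 : b₁ = -1 := by linarith
        exact ⟨e2, rfl, by linarith⟩
      · right; right
        have e2 : b₂ = -1 := by linarith
        exact ⟨e2, rfl, by linarith⟩

theorem third_of {m t : ℕ} (hm : 0 < m) (ht : 2 * t < m) (h : A m t = -1) : 3 * t = m := by
  have := A_eq (m := m) (n := 3) (s := t) (k := 1) hm (by norm_num) ht.le (by norm_num)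
    (h.trans A_third.symm)
  omega

theorem root_mem {m x s₁ s₂ s₃ : ℕ} (hm : 0 < m) (hx : 2 * x ≤ m)
    (h₁ : 2 * s₁ < m) (h₂ : 2 * s₂ < m) (h₃ : 2 * s₃ < m)
    (h : (A m x - A m s₁) * (A m x - A m s₂) * (A m x - A m s₃) = 0) :
    x = s₁ ∨ x = s₂ ∨ x = s₃ := by
  rcases mul_eq_zero.mp h with h | h
  · rcases mul_eq_zero.mp h with h | h
    · left; exact A_inj hm hx h₁.le (sub_eq_zero.mp h)
    · right; left; exact A_inj hm hx h₂.le (sub_eq_zero.mp h)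
  · right; right; exact A_inj hm hx h₃.le (sub_eq_zero.mp h)

theorem fam_aux {m q τ s₁ s₂ s₃ : ℕ} (hm : m = 3 * q) (hτ0 : 0 < τ) (hτ : 2 * τ < m)
    (h₁ : 2 * s₁ < m) (h₂ : 2 * s₂ < m) (h₃ : 2 * s₃ < m)
    (e1 : A m s₁ + A m s₂ + A m s₃ = 0)
    (e2 : A m s₁ * A m s₂ + A m s₁ * A m s₃ + A m s₂ * A m s₃ = -3)
    (e3 : A m s₁ * A m s₂ * A m s₃ = A m τ) :
    ∃ p, 0 < p ∧ 2 * p < q ∧ τ = 3 * p ∧ ({s₁, s₂, s₃} : Multiset ℕ) = {q + p, q - p, p} := by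
  have hm0 : 0 < m := by omega
  have hmR : (m : ℝ) ≠ 0 := by exact_mod_cast hm0.ne'
  have hc1 : A m (3 * s₁) = A m τ := by
    rw [← A_cube, ← e3]
    linear_combination (A m s₁)^2 * e1 - (A m s₁) * e2
  -- three divides `τ`
  have h3τ : 3 ∣ τ := by
    have h4 : cos (2 * (((3 * s₁ : ℕ) : ℝ) * π / m)) = cos (2 * (τ * π / m)) := by
      unfold A at hc1; linarith
    obtain ⟨k, hk⟩ := Real.cos_eq_cos_iff.mp h4
    have hpi := Real.pi_ne_zero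
    have hk' : (τ : ℝ) = k * m + (3 * s₁ : ℕ) ∨ (τ : ℝ) = k * m - (3 * s₁ : ℕ) := by
      rcases hk with hk | hk
      · left
        have : 2 * (τ * π / m) * m = (2 * k * π + 2 * (((3 * s₁ : ℕ) : ℝ) * π / m)) * m := by
          rw [hk]
        field_simp at this
        linarith
      · right
        have : 2 * (τ * π / m) * m = (2 * k * π - 2 * (((3 * s₁ : ℕ) : ℝ) * π / m)) * m := by
          rw [hk]
        field_simp at this
        linarith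
    have hk'' : (τ : ℤ) = k * m + (3 * s₁ : ℕ) ∨ (τ : ℤ) = k * m - (3 * s₁ : ℕ) := by
      rcases hk' with h | h
      · left; exact_mod_cast h
      · right; exact_mod_cast h
    have h5 : (3 : ℤ) ∣ τ := by
      rcases hk'' with h | h
      · rw [h, hm]
        refine ⟨k * q + s₁, ?_⟩
        push_cast; ring
      · rw [h, hm]
        refine ⟨k * q - s₁, ?_⟩
        push_cast; ring
    exact_mod_cast h5
  obtain ⟨p, rfl⟩ := h3τ
  have hp0 : 0 < p := by omega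
  have hpq : 2 * p < q := by omega
  refine ⟨p, hp0, hpq, rfl, ?_⟩
  have hq0 : 0 < q := by omega
  have hqR : (q : ℝ) ≠ 0 := by exact_mod_cast hq0.ne'
  have hmem : ∀ x, 2 * x ≤ m → A m (3 * x) = A m (3 * p) → x = s₁ ∨ x = s₂ ∨ x = s₃ := by
    intro x hx hx3
    apply root_mem hm0 hx h₁ h₂ h₃
    have h6 : A m x ^ 3 - 3 * A m x = A m (3 * p) := by rw [A_cube, hx3]
    linear_combination h6 - (A m x)^2 * e1 + (A m x) * e2 - e3
  have hx1 : A m (3 * (q - p)) = A m (3 * p) := by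
    unfold A
    congr 1
    have : 2 * (((3 * (q - p) : ℕ) : ℝ) * π / m) = 2 * π - 2 * (((3 * p : ℕ) : ℝ) * π / m) := by
      rw [hm]
      push_cast [Nat.cast_sub (by omega : p ≤ q)]
      field_simp
    rw [this, Real.cos_two_pi_sub]
  have hx2 : A m (3 * (q + p)) = A m (3 * p) := by
    unfold A
    congr 1
    have : 2 * (((3 * (q + p) : ℕ) : ℝ) * π / m) = 2 * (((3 * p : ℕ) : ℝ) * π / m) + 2 * π := by
      rw [hm]
      push_cast
      field_simp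
      ring
    rw [this, Real.cos_add_two_pi]
  apply mset_eq (by omega) (by omega) (by omega)
  · exact hmem (q + p) (by omega) hx2
  · exact hmem (q - p) (by omega) hx1
  · exact hmem p (by omega) rfl

theorem fam {m s₁ s₂ s₃ t₁ t₂ t₃ : ℕ}
    (hp₁ : 0 < t₁) (hp₂ : 0 < t₂) (hp₃ : 0 < t₃)
    (h₁ : 2 * s₁ < m) (h₂ : 2 * s₂ < m) (h₃ : 2 * s₃ < m)
    (k₁ : 2 * t₁ < m) (k₂ : 2 * t₂ < m) (k₃ : 2 * t₃ < m)
    (e1 : A m s₁ + A m s₂ + A m s₃ = 0)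
    (e2 : A m s₁ * A m s₂ + A m s₁ * A m s₃ + A m s₂ * A m s₃ = -3)
    (f1 : A m t₁ + A m t₂ + A m t₃ = A m s₁ * A m s₂ * A m s₃ - 2)
    (f2 : A m t₁ * A m t₂ + A m t₁ * A m t₃ + A m t₂ * A m t₃
      = 1 - 2 * (A m s₁ * A m s₂ * A m s₃))
    (f3 : A m s₁ * A m s₂ * A m s₃ = A m t₁ * A m t₂ * A m t₃) :
    ∃ p q, 0 < p ∧ 2 * p < q ∧ m = 3 * q ∧ ({s₁, s₂, s₃} : Multiset ℕ) = {q + p, q - p, p} ∧
      ({t₁, t₂, t₃} : Multiset ℕ) = {q, q, 3 * p} := by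
  have hm0 : 0 < m := by omega
  rcases two_of f1 f2 f3.symm with ⟨g1, g2, g3⟩ | ⟨g1, g2, g3⟩ | ⟨g1, g2, g3⟩
  · have q1 := third_of hm0 k₁ g1
    have q2 := third_of hm0 k₂ g2
    obtain ⟨p, hp0, hpq, hp, hS⟩ := fam_aux (q := t₁) q1.symm hp₃ k₃ h₁ h₂ h₃ e1 e2 g3.symm
    refine ⟨p, t₁, hp0, hpq, q1.symm, hS, ?_⟩
    have : t₂ = t₁ := by omega
    rw [this, hp]
  · have q1 := third_of hm0 k₁ g1
    have q2 := third_of hm0 k₃ g2
    obtain ⟨p, hp0, hpq, hp, hS⟩ := fam_aux (q := t₁) q1.symm hp₂ k₂ h₁ h₂ h₃ e1 e2 g3.symm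
    refine ⟨p, t₁, hp0, hpq, q1.symm, hS, ?_⟩
    have : t₃ = t₁ := by omega
    rw [this, hp]
    simp only [Multiset.insert_eq_cons]
    congr 1
    exact Multiset.cons_swap _ _ _
  · have q1 := third_of hm0 k₂ g1
    have q2 := third_of hm0 k₃ g2
    obtain ⟨p, hp0, hpq, hp, hS⟩ := fam_aux (q := t₂) q1.symm hp₁ k₁ h₁ h₂ h₃ e1 e2 g3.symm
    refine ⟨p, t₂, hp0, hpq, q1.symm, hS, ?_⟩
    have : t₃ = t₂ := by omega
    rw [this, hp]
    simp only [Multiset.insert_eq_cons]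
    rw [Multiset.cons_swap]
    congr 1
    exact Multiset.cons_swap _ _ _

/-! ### the sporadic solution -/

theorem seventh (k : ℕ) (hk : 0 < k) (hk7 : 2 * k < 7) :
    (A 7 k)^3 + (A 7 k)^2 - 2 * A 7 k - 1 = 0 := by
  have hne : A 7 k ≠ 2 := by
    intro h
    have h0 : A 7 k = A 7 0 := by rw [h]; unfold A; simp
    have := A_inj (by norm_num) hk7.le (by norm_num) h0
    omega
  have h43 : cos (4 * (2 * ((k : ℝ) * π / (7 : ℕ)))) = cos (3 * (2 * ((k : ℝ) * π / (7 : ℕ)))) := by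
    have : 4 * (2 * ((k : ℝ) * π / (7 : ℕ))) = k * (2 * π) - 3 * (2 * ((k : ℝ) * π / (7 : ℕ))) := by
      push_cast; ring
    rw [this, Real.cos_nat_mul_two_pi_sub]
  have h4 : cos (4 * (2 * ((k : ℝ) * π / (7 : ℕ))))
      = 2 * (2 * cos (2 * ((k : ℝ) * π / (7 : ℕ)))^2 - 1)^2 - 1 := by
    have : 4 * (2 * ((k : ℝ) * π / (7 : ℕ))) = 2 * (2 * (2 * ((k : ℝ) * π / (7 : ℕ)))) := by ring
    rw [this, Real.cos_two_mul, Real.cos_two_mul (2 * ((k : ℝ) * π / (7 : ℕ)))]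
  rw [h4, Real.cos_three_mul] at h43
  have hA : cos (2 * ((k : ℝ) * π / (7 : ℕ))) = A 7 k / 2 := by unfold A; ring
  rw [hA] at h43
  have hfac : (A 7 k - 2) * ((A 7 k)^3 + (A 7 k)^2 - 2 * A 7 k - 1) = 0 := by
    linear_combination 2 * h43
  exact (mul_eq_zero.mp hfac).resolve_left (sub_ne_zero.mpr hne)

theorem fifth (k : ℕ) (hk : 0 < k) (hk5 : 2 * k < 5) :
    (A 5 k)^2 + A 5 k - 1 = 0 := by
  have hne : A 5 k ≠ 2 := by
    intro h
    have h0 : A 5 k = A 5 0 := by rw [h]; unfold A; simp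
    have := A_inj (by norm_num) hk5.le (by norm_num) h0
    omega
  have h32 : cos (3 * (2 * ((k : ℝ) * π / (5 : ℕ)))) = cos (2 * (2 * ((k : ℝ) * π / (5 : ℕ)))) := by
    have : 3 * (2 * ((k : ℝ) * π / (5 : ℕ))) = k * (2 * π) - 2 * (2 * ((k : ℝ) * π / (5 : ℕ))) := by
      push_cast; ring
    rw [this, Real.cos_nat_mul_two_pi_sub]
  rw [Real.cos_two_mul, Real.cos_three_mul] at h32
  have hA : cos (2 * ((k : ℝ) * π / (5 : ℕ))) = A 5 k / 2 := by unfold A; ring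
  rw [hA] at h32
  have hfac : (A 5 k - 2) * ((A 5 k)^2 + A 5 k - 1) = 0 := by
    linear_combination 2 * h32
  exact (mul_eq_zero.mp hfac).resolve_left (sub_ne_zero.mpr hne)

theorem root_mem' {m n x s₁ s₂ s₃ : ℕ} (hm : 0 < m) (hn : 0 < n) (hx : 2 * x ≤ n)
    (h₁ : 2 * s₁ < m) (h₂ : 2 * s₂ < m) (h₃ : 2 * s₃ < m)
    (h : (A n x - A m s₁) * (A n x - A m s₂) * (A n x - A m s₃) = 0) :
    n * s₁ = x * m ∨ n * s₂ = x * m ∨ n * s₃ = x * m := by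
  rcases mul_eq_zero.mp h with h | h
  · rcases mul_eq_zero.mp h with h | h
    · left; exact A_eq hm hn h₁.le hx (sub_eq_zero.mp h).symm
    · right; left; exact A_eq hm hn h₂.le hx (sub_eq_zero.mp h).symm
  · right; right; exact A_eq hm hn h₃.le hx (sub_eq_zero.mp h).symm

theorem spor {m s₁ s₂ s₃ t₁ t₂ t₃ : ℕ}
    (h₁ : 2 * s₁ < m) (h₂ : 2 * s₂ < m) (h₃ : 2 * s₃ < m)
    (k₁ : 2 * t₁ < m) (k₂ : 2 * t₂ < m) (k₃ : 2 * t₃ < m)
    (e1 : A m s₁ + A m s₂ + A m s₃ = -1)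
    (e2 : A m s₁ * A m s₂ + A m s₁ * A m s₃ + A m s₂ * A m s₃ = -2)
    (e3 : A m s₁ * A m s₂ * A m s₃ = 1)
    (f1 : A m t₁ + A m t₂ + A m t₃ = -2)
    (f2 : A m t₁ * A m t₂ + A m t₁ * A m t₃ + A m t₂ * A m t₃ = 0)
    (f3 : A m s₁ * A m s₂ * A m s₃ = A m t₁ * A m t₂ * A m t₃) :
    ∃ k, 0 < k ∧ m = 105 * k ∧ ({s₁, s₂, s₃} : Multiset ℕ) = {15 * k, 30 * k, 45 * k} ∧
      ({t₁, t₂, t₃} : Multiset ℕ) = {21 * k, 35 * k, 42 * k} := by
  have hm0 : 0 < m := by omega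
  have hS : ∀ k, 0 < k → 2 * k < 7 → 7 * s₁ = k * m ∨ 7 * s₂ = k * m ∨ 7 * s₃ = k * m := by
    intro k hk hk7
    apply root_mem' hm0 (by norm_num) hk7.le h₁ h₂ h₃
    have h := seventh k hk hk7
    linear_combination h - (A 7 k)^2 * e1 + (A 7 k) * e2 - e3
  have hT : ∀ k, 0 < k → 2 * k < 5 → 5 * t₁ = k * m ∨ 5 * t₂ = k * m ∨ 5 * t₃ = k * m := by
    intro k hk hk5
    apply root_mem' hm0 (by norm_num) hk5.le k₁ k₂ k₃
    have h := fifth k hk hk5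
    linear_combination (A 5 k + 1) * h - (A 5 k)^2 * f1 + (A 5 k) * f2 + f3 - e3
  have hT3 : 3 * t₁ = 1 * m ∨ 3 * t₂ = 1 * m ∨ 3 * t₃ = 1 * m := by
    apply root_mem' hm0 (by norm_num) (by norm_num) k₁ k₂ k₃
    rw [A_third]
    linear_combination - f1 - f2 + f3 - e3
  have hS1 := hS 1 (by norm_num) (by norm_num)
  have hS2 := hS 2 (by norm_num) (by norm_num)
  have hS3 := hS 3 (by norm_num) (by norm_num)
  have hT1 := hT 1 (by norm_num) (by norm_num)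
  have hT2 := hT 2 (by norm_num) (by norm_num)
  have d7 : 7 ∣ m := by omega
  have d5 : 5 ∣ m := by omega
  have d3 : 3 ∣ m := by omega
  have d : 105 ∣ m := by omega
  obtain ⟨k, rfl⟩ := d
  have hk : 0 < k := by omega
  refine ⟨k, hk, rfl, ?_, ?_⟩
  · apply mset_eq (by omega) (by omega) (by omega)
    · omega
    · omega
    · omega
  · apply mset_eq (by omega) (by omega) (by omega)
    · omega
    · omega
    · omega


/-! ### the converse: every listed symbol is admissible -/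

theorem adm_of {m s₁ t₁ s₂ t₂ s₃ t₃ : ℕ} {P Q : Multiset ℕ}
    (hP : ∀ x ∈ P, 0 < x ∧ 2 * x < m) (hQ : ∀ x ∈ Q, 0 < x ∧ 2 * x < m)
    (hd : ∀ x ∈ P, ∀ y ∈ Q, x ≠ y)
    (hprod : (P.map (fun x : ℕ => cos (x * π / m))).prod
      = (Q.map (fun x : ℕ => cos (x * π / m))).prod)
    (hsum : Even (P.sum + Q.sum))
    (h : SidesAre s₁ t₁ s₂ t₂ s₃ t₃ P Q) : Admissible m s₁ t₁ s₂ t₂ s₃ t₃ := by
  have hs : ∀ a b c : ℕ, ∀ R : Multiset ℕ, ({a, b, c} : Multiset ℕ) = R →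
      (a ∈ R ∧ b ∈ R ∧ c ∈ R) ∧ a + b + c = R.sum ∧
      cos (a * π / m) * cos (b * π / m) * cos (c * π / m)
        = (R.map (fun x : ℕ => cos (x * π / m))).prod := by
    rintro a b c R rfl
    refine ⟨by simp, ?_, ?_⟩
    · simp [add_assoc]
    · simp [mul_assoc]
  rcases h with ⟨h1, h2⟩ | ⟨h1, h2⟩
  · obtain ⟨⟨a1, a2, a3⟩, a4, a5⟩ := hs _ _ _ _ h1
    obtain ⟨⟨b1, b2, b3⟩, b4, b5⟩ := hs _ _ _ _ h2
    refine ⟨⟨(hP _ a1).1, (hQ _ b1).1, (hP _ a2).1, (hQ _ b2).1, (hP _ a3).1, (hQ _ b3).1⟩,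
      ?_, ⟨hd _ a1 _ b1, (hd _ a2 _ b1).symm, hd _ a2 _ b2, (hd _ a3 _ b2).symm, hd _ a3 _ b3,
        (hd _ a1 _ b3).symm⟩,
      ⟨(hP _ a1).2, (hQ _ b1).2, (hP _ a2).2, (hQ _ b2).2, (hP _ a3).2, (hQ _ b3).2⟩, ?_⟩
    · rw [a5, b5, hprod]
    · have : s₁ + s₂ + s₃ + t₁ + t₂ + t₃ = P.sum + Q.sum := by omega
      rw [this]; exact hsum
  · obtain ⟨⟨a1, a2, a3⟩, a4, a5⟩ := hs _ _ _ _ h1
    obtain ⟨⟨b1, b2, b3⟩, b4, b5⟩ := hs _ _ _ _ h2
    refine ⟨⟨(hQ _ a1).1, (hP _ b1).1, (hQ _ a2).1, (hP _ b2).1, (hQ _ a3).1, (hP _ b3).1⟩,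
      ?_, ⟨(hd _ b1 _ a1).symm, hd _ b1 _ a2, (hd _ b2 _ a2).symm, hd _ b2 _ a3,
        (hd _ b3 _ a3).symm, hd _ b3 _ a1⟩,
      ⟨(hQ _ a1).2, (hP _ b1).2, (hQ _ a2).2, (hP _ b2).2, (hQ _ a3).2, (hP _ b3).2⟩, ?_⟩
    · rw [a5, b5, hprod]
    · have : s₁ + s₂ + s₃ + t₁ + t₂ + t₃ = P.sum + Q.sum := by omega
      rw [this]; exact hsum

theorem prod_family {p q : ℕ} (hpq : 2 * p < q) :
    ((({q + p, q - p, p} : Multiset ℕ)).map (fun x : ℕ => cos (x * π / (3 * q : ℕ)))).prod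
      = ((({q, q, 3 * p} : Multiset ℕ)).map (fun x : ℕ => cos (x * π / (3 * q : ℕ)))).prod := by
  have hq : 0 < q := by omega
  have hqR : (q : ℝ) ≠ 0 := by exact_mod_cast hq.ne'
  simp only [Multiset.insert_eq_cons, Multiset.map_cons, Multiset.map_singleton,
    Multiset.prod_cons, Multiset.prod_singleton]
  obtain ⟨x, hx⟩ : ∃ x : ℝ, x = p * π / (3 * q : ℕ) := ⟨_, rfl⟩
  have e1 : (((q + p : ℕ) : ℝ) * π / (3 * q : ℕ)) = π / 3 + x := by
    rw [hx]; push_cast; field_simp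
  have e2 : (((q - p : ℕ) : ℝ) * π / (3 * q : ℕ)) = π / 3 - x := by
    rw [hx]; push_cast [Nat.cast_sub (by omega : p ≤ q)]; field_simp
  have e3 : ((q : ℝ) * π / (3 * q : ℕ)) = π / 3 := by
    push_cast; field_simp
  have e4 : (((3 * p : ℕ) : ℝ) * π / (3 * q : ℕ)) = 3 * x := by
    rw [hx]; push_cast; ring
  rw [e1, e2, e3, e4, ← hx, Real.cos_add, Real.cos_sub, Real.cos_three_mul,
    Real.cos_pi_div_three, Real.sin_pi_div_three]
  have hs : sin x ^ 2 = 1 - cos x ^ 2 := by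
    have := Real.sin_sq_add_cos_sq x; linarith
  have h3 : (√3 : ℝ) ^ 2 = 3 := Real.sq_sqrt (by norm_num)
  have hexp : (1 / 2 * cos x - √3 / 2 * sin x) * ((1 / 2 * cos x + √3 / 2 * sin x) * cos x)
      = (1/4 * cos x^2 - (√3)^2/4 * sin x^2) * cos x := by ring
  rw [hexp, h3, hs]
  ring

theorem cos_fifths : cos (π / 5) * cos (2 * (π / 5)) = 1 / 4 := by
  rw [Real.cos_two_mul, Real.cos_pi_div_five]
  have h5 : (√5 : ℝ) ^ 2 = 5 := Real.sq_sqrt (by norm_num)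
  have h53 : (√5 : ℝ) ^ 3 = 5 * √5 := by rw [pow_succ, h5]
  ring_nf
  rw [h5, h53]
  ring

theorem cos_sevenths : cos (π / 7) * cos (2 * (π / 7)) * cos (3 * (π / 7)) = 1 / 8 := by
  have hpos : 0 < sin (π / 7) := by
    apply Real.sin_pos_of_pos_of_lt_pi (by positivity)
    have := Real.pi_pos
    linarith
  have h3 : cos (3 * (π / 7)) = - cos (2 * (2 * (π / 7))) := by
    rw [← Real.cos_pi_sub]; congr 1; ring
  have h8 : sin (2 * (2 * (2 * (π / 7)))) = - sin (π / 7) := by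
    have : 2 * (2 * (2 * (π / 7))) = π / 7 + π := by ring
    rw [this, Real.sin_add_pi]
  have hexp : sin (2 * (2 * (2 * (π / 7))))
      = 8 * sin (π / 7) * cos (π / 7) * cos (2 * (π / 7)) * cos (2 * (2 * (π / 7))) := by
    rw [Real.sin_two_mul (2 * (2 * (π / 7))), Real.sin_two_mul (2 * (π / 7)),
      Real.sin_two_mul (π / 7)]
    ring
  rw [h3]
  rw [hexp] at h8
  have h9 : sin (π / 7) * (8 * (cos (π / 7) * cos (2 * (π / 7)) * -cos (2 * (2 * (π / 7)))) - 1)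
      = 0 := by linear_combination -h8
  have h10 := (mul_eq_zero.mp h9).resolve_left hpos.ne'
  linarith

theorem prod_spor {k : ℕ} (hk : 0 < k) :
    ((({21 * k, 35 * k, 42 * k} : Multiset ℕ)).map
      (fun x : ℕ => cos (x * π / (105 * k : ℕ)))).prod
      = ((({15 * k, 30 * k, 45 * k} : Multiset ℕ)).map
      (fun x : ℕ => cos (x * π / (105 * k : ℕ)))).prod := by
  have hkR : (k : ℝ) ≠ 0 := by exact_mod_cast hk.ne'
  simp only [Multiset.insert_eq_cons, Multiset.map_cons, Multiset.map_singleton,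
    Multiset.prod_cons, Multiset.prod_singleton]
  have e : ∀ a : ℕ, (((a * k : ℕ) : ℝ) * π / (105 * k : ℕ)) = a / 105 * π := by
    intro a; push_cast; field_simp
  rw [e, e, e, e, e, e]
  have e1 : ((21 : ℕ) : ℝ) / 105 * π = π / 5 := by push_cast; ring
  have e2 : ((35 : ℕ) : ℝ) / 105 * π = π / 3 := by push_cast; ring
  have e3 : ((42 : ℕ) : ℝ) / 105 * π = 2 * (π / 5) := by push_cast; ring
  have e4 : ((15 : ℕ) : ℝ) / 105 * π = π / 7 := by push_cast; ring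
  have e5 : ((30 : ℕ) : ℝ) / 105 * π = 2 * (π / 7) := by push_cast; ring
  have e6 : ((45 : ℕ) : ℝ) / 105 * π = 3 * (π / 7) := by push_cast; ring
  rw [e1, e2, e3, e4, e5, e6, Real.cos_pi_div_three]
  have h1 := cos_fifths
  have h2 := cos_sevenths
  linear_combination (1/2 : ℝ) * h1 - h2

/-! ### the main theorem -/

/-- **All admissible symbols with odd `m`.** For odd `m`, a symbol is admissible if and only if it
is trivial, or it belongs to the family `m = 3q`, `{S,T} = {{q+p, q-p, p}, {q, q, 3p}}`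
(`0 < p < q/2`), or it is one of the multiples (`m = 105 k`) of the single solution
`{S,T} = {{21, 35, 42}, {15, 30, 45}}` for `m = 105`. -/
theorem result (m s₁ t₁ s₂ t₂ s₃ t₃ : ℕ) (hm : Odd m) :
    Admissible m s₁ t₁ s₂ t₂ s₃ t₃ ↔
      (∃ b c d : ℕ, 0 < b ∧ 0 < c ∧ 0 < d ∧ 2 * b < m ∧ 2 * c < m ∧ 2 * d < m ∧
        b ≠ c ∧ c ≠ d ∧ b ≠ d ∧
        s₁ = b ∧ t₁ = c ∧ s₂ = d ∧ t₂ = b ∧ s₃ = c ∧ t₃ = d) ∨
      (∃ p q : ℕ, 0 < p ∧ 2 * p < q ∧ m = 3 * q ∧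
        SidesAre s₁ t₁ s₂ t₂ s₃ t₃ {q + p, q - p, p} {q, q, 3 * p}) ∨
      (∃ k : ℕ, 0 < k ∧ m = 105 * k ∧
        SidesAre s₁ t₁ s₂ t₂ s₃ t₃ {21 * k, 35 * k, 42 * k} {15 * k, 30 * k, 45 * k}) := by
  constructor
  · rintro ⟨⟨p1, p2, p3, p4, p5, p6⟩, hcos, ⟨n1, n2, n3, n4, n5, n6⟩, ⟨l1, l2, l3, l4, l5, l6⟩, hev⟩
    have hm0 : 0 < m := by omega
    obtain ⟨hu, hcases⟩ := real_core m hm s₁ s₂ s₃ t₁ t₂ t₃ hcos hev _ _ _ _ _ _ rfl rfl rfl
      rfl rfl rfl _ _ _ _ _ rfl rfl rfl rfl rfl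
    rcases hcases with ⟨g1, g2⟩ | ⟨g1, g2, g3, g4⟩ | ⟨g1, g2, g3, g4⟩ | ⟨g1, g2, g3, g4, g5⟩ |
      ⟨g1, g2, g3, g4, g5⟩
    · left
      have r1 : s₁ = t₁ ∨ s₁ = t₂ ∨ s₁ = t₃ := by
        apply root_mem hm0 l1.le l2 l4 l6
        linear_combination (A m s₁)^2 * g1 - (A m s₁) * g2 + hu
      have r2 : s₂ = t₁ ∨ s₂ = t₂ ∨ s₂ = t₃ := by
        apply root_mem hm0 l3.le l2 l4 l6
        linear_combination (A m s₂)^2 * g1 - (A m s₂) * g2 + hu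
      have r3 : s₃ = t₁ ∨ s₃ = t₂ ∨ s₃ = t₃ := by
        apply root_mem hm0 l5.le l2 l4 l6
        linear_combination (A m s₃)^2 * g1 - (A m s₃) * g2 + hu
      have q1 : t₂ = s₁ := by omega
      have q2 : t₃ = s₂ := by omega
      have q3 : s₃ = t₁ := by omega
      exact ⟨s₁, t₁, s₂, p1, p2, p3, l1, l2, l3, n1, n2, by omega, rfl, rfl, rfl, q1, q3, q2⟩
    · right; left
      obtain ⟨p, q, hp, hpq, hmq, hS, hT⟩ := fam p2 p4 p6 l1 l3 l5 l2 l4 l6 g1 g2 g3 g4 hu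
      exact ⟨p, q, hp, hpq, hmq, Or.inl ⟨hS, hT⟩⟩
    · right; left
      rw [hu] at g3 g4
      obtain ⟨p, q, hp, hpq, hmq, hS, hT⟩ := fam p1 p3 p5 l2 l4 l6 l1 l3 l5 g1 g2 g3 g4 hu.symm
      exact ⟨p, q, hp, hpq, hmq, Or.inr ⟨hT, hS⟩⟩
    · right; right
      obtain ⟨k, hk, hmk, hS, hT⟩ := spor l1 l3 l5 l2 l4 l6 g1 g2 g3 g4 g5 hu
      exact ⟨k, hk, hmk, Or.inr ⟨hS, hT⟩⟩
    · right; right
      rw [hu] at g3
      obtain ⟨k, hk, hmk, hS, hT⟩ := spor l2 l4 l6 l1 l3 l5 g1 g2 g3 g4 g5 hu.symm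
      exact ⟨k, hk, hmk, Or.inl ⟨hT, hS⟩⟩
  · rintro (⟨b, c, d, p1, p2, p3, l1, l2, l3, n1, n2, n3, rfl, rfl, rfl, rfl, rfl, rfl⟩ |
      ⟨p, q, hp, hpq, rfl, hS⟩ | ⟨k, hk, rfl, hS⟩)
    · refine ⟨⟨p1, p2, p3, p1, p2, p3⟩, by ring, ⟨n1, n2, n3.symm, n1, n2, n3.symm⟩,
        ⟨l1, l2, l3, l1, l2, l3⟩, ?_⟩
      exact ⟨t₂ + s₃ + t₃, by ring⟩
    · have hq : q % 2 = 1 := by
        obtain ⟨r, hr⟩ := hm
        omega
      apply adm_of ?_ ?_ ?_ (prod_family hpq) ?_ hS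
      · simp only [Multiset.insert_eq_cons, Multiset.mem_cons, Multiset.mem_singleton]
        omega
      · simp only [Multiset.insert_eq_cons, Multiset.mem_cons, Multiset.mem_singleton]
        omega
      · simp only [Multiset.insert_eq_cons, Multiset.mem_cons, Multiset.mem_singleton]
        omega
      · simp only [Multiset.insert_eq_cons, Multiset.sum_cons, Multiset.sum_singleton]
        exact ⟨2 * q + 2 * p, by omega⟩
    · apply adm_of ?_ ?_ ?_ (prod_spor hk) ?_ hS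
      · simp only [Multiset.insert_eq_cons, Multiset.mem_cons, Multiset.mem_singleton]
        omega
      · simp only [Multiset.insert_eq_cons, Multiset.mem_cons, Multiset.mem_singleton]
        omega
      · simp only [Multiset.insert_eq_cons, Multiset.mem_cons, Multiset.mem_singleton]
        omega
      · simp only [Multiset.insert_eq_cons, Multiset.sum_cons, Multiset.sum_singleton]
        exact ⟨94 * k, by omega⟩

end Pool.Agent.Lib_MP_6e4ab6_nt.Odd
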